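import Pool.Agent.R211.BQ.Att

/-!
The projection of the weak sigma-attractor of the semi-dissipative Boussinesq system on the
temperature has full interior.
-/

set_option autoImplicit false

open Set MeasureTheory
open Pool.Agent.R211.BQ

namespace Pool.Agent.Results.MP_3e0609_an.FullInterior

/-- The interior of a set in the space `L²` of mean-free functions, for the norm topology: the
points `θ₁` such that some ball of centre `θ₁` and radius `ε > 0` is contained in the set. -/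
def Inn (S : Set (T2 → ℝ)) : Set (T2 → ℝ) :=
  {θ₁ | θ₁ ∈ L20 ∧ ∃ ε > 0, ∀ θ ∈ L20, ∫ y, (θ y - θ₁ y) ^ 2 ∂mu < ε ^ 2 → θ ∈ S}

/-- For all `L, ν, g > 0` the interior of `P_θ 𝒜` in `L²` is the whole space `L²`, and `P_θ 𝒜` is
the whole space. -/
theorem result (L ν g : ℝ) (hL : 0 < L) (hν : 0 < ν) (_ : 0 < g) :
    Inn (Prod.snd '' Att L ν g) = L20 ∧ Prod.snd '' Att L ν g = L20 := by
  have h : ∀ θ ∈ L20, θ ∈ Prod.snd '' Att L ν g := by
    intro θ hθ
    obtain ⟨u₀, -, h2⟩ := att_full (g := g) hL hν hθ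
    exact ⟨(u₀, θ), h2, rfl⟩
  refine ⟨Subset.antisymm (fun θ hθ => hθ.1) fun θ hθ => ⟨hθ, 1, one_pos, fun θ' h' _ => h θ' h'⟩,
    Subset.antisymm ?_ h⟩
  rintro _ ⟨p, ⟨u, θ, h1, -, -, h4⟩, rfl⟩
  rw [← h4]
  exact h1.memL 0 (mem_univ _)

end Pool.Agent.Results.MP_3e0609_an.FullInterior
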